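import Pool.Agent.helper84.QI.Spec

set_option autoImplicit false

namespace Pool.Agent.QI

lemma EFN_sup {G : Type} [Group G] (N₁ N₂ : Subgroup G) (h1 : N₁.Normal) (h2 : N₂.Normal)
    (f1 : (N₁ : Set G).Finite) (f2 : (N₂ : Set G).Finite) : ((N₁ ⊔ N₂ : Subgroup G) : Set G).Finite := by
  rw [Subgroup.mul_normal]
  exact f1.mul f2

theorem EFN (hNIN : NIN_stmt) : EFN_stmt := by
  intro G _ a b h
  let S : Set (Subgroup G) := {N | N.Normal ∧ (N : Set G).Finite}
  have hne : S.Nonempty := ⟨⊥, inferInstance, by simp⟩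
  have hdir : DirectedOn (· ≤ ·) S := by
    intro N₁ hN₁ N₂ hN₂
    refine ⟨N₁ ⊔ N₂, ⟨?_, EFN_sup N₁ N₂ hN₁.1 hN₂.1 hN₁.2 hN₂.2⟩, le_sup_left, le_sup_right⟩
    haveI := hN₁.1
    haveI := hN₂.1
    exact Subgroup.sup_normal N₁ N₂
  have hmem : ∀ x : G, x ∈ sSup S ↔ ∃ N ∈ S, x ∈ N := fun x => Subgroup.mem_sSup_of_directedOn hne hdir
  have hnor : (sSup S).Normal := by
    constructor
    intro n hn g
    rw [hmem] at hn ⊢
    obtain ⟨N, hN, hnN⟩ := hn
    exact ⟨N, hN, hN.1.conj_mem n hnN g⟩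
  have hle : ∀ N : Subgroup G, N.Normal → (N : Set G).Finite → N ≤ sSup S := fun N h1 h2 => le_sSup ⟨h1, h2⟩
  refine ⟨sSup S, hnor, ?_, hle⟩
  by_contra hinf
  have hfi : (sSup S).FiniteIndex := hNIN G a b h (sSup S) hnor hinf
  have hFG : Group.FG G := by
    classical
    refine ⟨⟨({a, b} : Finset G), ?_⟩⟩
    rw [Finset.coe_insert, Finset.coe_singleton]
    exact h.gen
  haveI := hFG
  haveI := hfi
  have hfg : (sSup S).FG := by
    have h1 : Group.FG (sSup S : Subgroup G) := Subgroup.fg_of_index_ne_zero (H := sSup S)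
    exact (Group.fg_iff_subgroup_fg (sSup S)).1 h1
  obtain ⟨T, hT⟩ := hfg
  have key : ∀ T' : Finset G, (∀ x ∈ T', x ∈ sSup S) → ∃ N ∈ S, ∀ x ∈ T', x ∈ N := by
    intro T'
    classical
    induction T' using Finset.induction_on with
    | empty => intro _; obtain ⟨N, hN⟩ := hne; exact ⟨N, hN, by simp⟩
    | insert y T'' hy ih =>
      intro hall
      obtain ⟨N₁, hN₁, h1⟩ := ih (fun x hx => hall x (Finset.mem_insert_of_mem hx))
      obtain ⟨N₂, hN₂, h2⟩ := (hmem y).1 (hall y (Finset.mem_insert_self _ _))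
      obtain ⟨N, hN, hle1, hle2⟩ := hdir N₁ hN₁ N₂ hN₂
      refine ⟨N, hN, ?_⟩
      intro x hx
      rcases Finset.mem_insert.1 hx with rfl | hx
      · exact hle2 h2
      · exact hle1 (h1 x hx)
  obtain ⟨N, hN, hTN⟩ := key T (fun x hx => by rw [← hT]; exact Subgroup.subset_closure hx)
  have hEN : sSup S ≤ N := by
    rw [← hT]
    exact (Subgroup.closure_le N).2 (fun x hx => hTN x hx)
  exact hinf (hN.2.subset hEN)

end Pool.Agent.QI
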